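import Pool.Agent.H93.ES.Targets

/-!
Row FAM of es_modules (MP_c59857_nt): subadditivity of the conditional entropy for a family.
-/

set_option autoImplicit false

namespace Pool.Agent.H95.ES

open Finset Pool.Agent.H18.MR Pool.Agent.H93.DE Pool.Agent.H6.N4D Pool.Agent.H93 Pool.Agent.H93.ES

theorem pf_FAM : T_FAM := by
  intro Ω α β _ _ _ _ μ k
  induction k with
  | zero =>
    intro X Z
    have h : ent μ (fun ω => ((fun i => X i ω : Fin 0 → α), Z ω)) = ent μ Z :=
      ent_congr_inj μ _ _ Prod.snd (fun b => ((fun i => i.elim0 : Fin 0 → α), b))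
        (fun ω => rfl) (fun ω => Prod.ext (funext fun i => i.elim0) rfl)
    rw [h]
    simp
  | succ k ih =>
    intro X Z
    have h1 : ent μ (fun ω => ((fun i => X i ω : Fin (k + 1) → α), Z ω)) =
        ent μ (fun ω => (X 0 ω, (fun i => X i.succ ω : Fin k → α), Z ω)) :=
      ent_congr_inj μ _ _ (fun p => (p.1 0, (fun i => p.1 i.succ : Fin k → α), p.2))
        (fun t => (Fin.cons (α := fun _ => α) t.1 t.2.1, t.2.2)) (fun ω => rfl)
        (fun ω => Prod.ext (funext fun i => by
          refine Fin.cases ?_ (fun j => ?_) i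
          · rfl
          · rfl) rfl)
    have h2 := ent_submod μ (X 0) (fun ω => (fun i => X i.succ ω : Fin k → α)) Z
    have h3 := ih (fun i => X i.succ) Z
    rw [Fin.sum_univ_succ]
    linarith

end Pool.Agent.H95.ES
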