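import Pool.Agent.H93.ES.Targets

/-!
Row MEA of es_modules (MP_c59857_nt): the mean over the samples is a mean over the window.
-/

set_option autoImplicit false

namespace Pool.Agent.H95.ES

open Finset Pool.Agent.H18.MR Pool.Agent.H93.DE Pool.Agent.H6.N4D Pool.Agent.H93 Pool.Agent.H93.ES

theorem sum_pi {R D : ℕ} (r : Fin R) (h : Fin D → ℂ) :
    ∑ e : Fin R → Fin D, h (e r) = (D : ℂ) ^ (R - 1) * ∑ i, h i := by
  have h0 := Finset.prod_univ_sum (fun _ : Fin R => (univ : Finset (Fin D)))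
    (fun r' i => if r' = r then h i else 1)
  rw [Fintype.piFinset_univ] at h0
  have h1 : ∑ e : Fin R → Fin D, ∏ r', (if r' = r then h (e r') else 1) =
      ∑ e : Fin R → Fin D, h (e r) := by
    refine Finset.sum_congr rfl fun e _ => ?_
    rw [Finset.prod_ite_eq' univ r (fun r' => h (e r')), if_pos (mem_univ r)]
  rw [h1] at h0
  rw [← h0, ← Finset.mul_prod_erase univ _ (mem_univ r), mul_comm]
  congr 1
  · have h2 : ∀ r' ∈ (univ : Finset (Fin R)).erase r,
        ∑ i : Fin D, (if r' = r then h i else 1) = (D : ℂ) := by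
      intro r' hr'
      rw [Finset.sum_congr rfl fun i _ => if_neg (ne_of_mem_erase hr')]
      simp
    rw [Finset.prod_congr rfl h2, Finset.prod_const, card_erase_of_mem (mem_univ r), card_univ,
      Fintype.card_fin]
  · exact Finset.sum_congr rfl fun i _ => if_pos rfl

/-- sums over blocks -/
theorem sum_blocks (D k : ℕ) (G : ℕ → ℂ) :
    ∑ r ∈ range k, ∑ i ∈ range D, G (r * D + i) = ∑ p ∈ range (k * D), G p := by
  induction k with
  | zero => simp
  | succ k ih => rw [sum_range_succ, ih, Nat.succ_mul, sum_range_add]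

theorem sum_win (K M T : ℕ) (F : ℕ → ℂ) (hT : K + M ≤ T) :
    ∑ p ∈ range K, ∑ s ∈ range M, F (p + s) =
      ∑ t ∈ range T, (((range K).filter (fun p => p ≤ t ∧ t < p + M)).card : ℂ) * F t := by
  have h1 : ∀ p ∈ range K, ∑ s ∈ range M, F (p + s) =
      ∑ t ∈ range T, if p ≤ t ∧ t < p + M then F t else 0 := by
    intro p hp
    rw [mem_range] at hp
    rw [← Finset.sum_filter]
    have e : (range T).filter (fun t => p ≤ t ∧ t < p + M) = Ico p (p + M) := by
      ext t
      simp only [mem_filter, mem_range, mem_Ico]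
      constructor
      · intro h; exact h.2
      · intro h; exact ⟨by omega, h⟩
    rw [e, Finset.sum_Ico_eq_sum_range, Nat.add_sub_cancel_left]
  rw [Finset.sum_congr rfl h1, Finset.sum_comm]
  refine Finset.sum_congr rfl fun t _ => ?_
  rw [← Finset.sum_filter, Finset.sum_const, nsmul_eq_mul]

theorem rho_le (w : ℕ) (hw : 10 ^ 5 ≤ w) : rho w ≤ w := by
  unfold rho
  have h1 : w - 31 < 2 ^ (w - 31) := Nat.lt_two_pow_self
  have h2 : 2 ^ (w - 30) = 2 * 2 ^ (w - 31) := by
    rw [← pow_succ']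
    congr 1
    omega
  have h3 : w < 2 ^ (w - 30) := by omega
  have h4 : Nat.log 2 w < w - 30 := Nat.log_lt_of_lt_pow (by omega) h3
  omega

theorem mea_gen (R D w m k : ℕ) (f : ℕ → ℝ) (c : ℕ → ℂ) (hRD : R * D = 2 ^ w) (hRpos : 0 < R)
    (hDpos : 0 < D) (hk : k ≤ R) :
    (∑ e : Fin R → Fin D, smp f m c e k) / ((D : ℂ)) ^ R =
      (∑ t ∈ range (2 ^ w + 2 ^ m), ((f t * wt m (k * D) t : ℝ) : ℂ) * c t) / 2 ^ w := by
  have hR0 : (R : ℂ) ≠ 0 := by exact_mod_cast hRpos.ne'
  have hD0 : (D : ℂ) ≠ 0 := by exact_mod_cast hDpos.ne'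
  have hRDc : (R : ℂ) * (D : ℂ) = 2 ^ w := by
    have : ((R * D : ℕ) : ℂ) = ((2 ^ w : ℕ) : ℂ) := by rw [hRD]
    push_cast at this
    exact this
  set G : ℕ → ℂ := fun p => (∑ s ∈ range (2 ^ m), (f (p + s) : ℂ) * c (p + s)) / 2 ^ m with hG
  have h1 : ∑ e : Fin R → Fin D, smp f m c e k =
      (∑ r : Fin R, if (r : ℕ) < k then (D : ℂ) ^ (R - 1) * ∑ i : Fin D, G (r * D + i) else 0) /
        R := by
    unfold smp
    rw [← Finset.sum_div, Finset.sum_comm]
    congr 1
    refine Finset.sum_congr rfl fun r _ => ?_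
    by_cases hr : (r : ℕ) < k
    · simp only [if_pos hr]
      exact sum_pi r (fun i => G (r * D + i))
    · simp only [if_neg hr, Finset.sum_const_zero]
  have h2 : (∑ r : Fin R, if (r : ℕ) < k then (D : ℂ) ^ (R - 1) * ∑ i : Fin D, G (r * D + i)
      else 0) = (D : ℂ) ^ (R - 1) * ∑ p ∈ range (k * D), G p := by
    rw [← sum_blocks, Finset.mul_sum]
    have e1 : (∑ r : Fin R, if (r : ℕ) < k then (D : ℂ) ^ (R - 1) * ∑ i : Fin D, G (r * D + i)
        else 0) = ∑ r ∈ range R, if r < k then (D : ℂ) ^ (R - 1) *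
          ∑ i : Fin D, G (r * D + i) else 0 :=
      (Finset.sum_range (fun r => if r < k then (D : ℂ) ^ (R - 1) *
          ∑ i : Fin D, G (r * D + i) else 0)).symm
    rw [e1, ← Finset.sum_filter]
    have e2 : (range R).filter (fun r => r < k) = range k := by
      ext r
      simp only [mem_filter, mem_range]
      omega
    rw [e2]
    refine Finset.sum_congr rfl fun r _ => ?_
    rw [Finset.sum_range (fun i => G (r * D + i))]
  have hK : k * D + 2 ^ m ≤ 2 ^ w + 2 ^ m := by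
    rw [← hRD]
    exact Nat.add_le_add_right (Nat.mul_le_mul_right D hk) _
  have h3 : ∑ p ∈ range (k * D), G p = ∑ t ∈ range (2 ^ w + 2 ^ m),
      ((f t * wt m (k * D) t : ℝ) : ℂ) * c t := by
    rw [hG]
    simp only
    rw [← Finset.sum_div, sum_win (k * D) (2 ^ m) _ (fun t => (f t : ℂ) * c t) hK,
      Finset.sum_div]
    refine Finset.sum_congr rfl fun t _ => ?_
    unfold wt
    push_cast
    ring
  rw [h1, h2, h3, ← hRDc]
  have hpow : (D : ℂ) ^ R = (D : ℂ) ^ (R - 1) * D := by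
    rw [← pow_succ, Nat.sub_add_cancel hRpos]
  rw [hpow]
  have hP : (D : ℂ) ^ (R - 1) ≠ 0 := pow_ne_zero _ hD0
  field_simp

theorem pf_MEA : T_MEA := by
  intro w m k f c hw _ hk
  have hrho := rho_le w hw
  have h := mea_gen (2 ^ rho w) (2 ^ (w - rho w)) w m k f c
    (by rw [← pow_add, Nat.add_sub_cancel' hrho]) (Nat.pow_pos (by norm_num))
    (Nat.pow_pos (by norm_num)) hk
  have e : ((2 ^ (w - rho w) : ℕ) : ℂ) = (2 : ℂ) ^ (w - rho w) := by
    rw [Nat.cast_pow, Nat.cast_ofNat]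
  rw [e] at h
  exact h

end Pool.Agent.H95.ES
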